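import Mathlib
import Pool.Agent.Helper691.NS.Main

set_option autoImplicit false
open Filter Topology

namespace Pool.Agent.Results.MP_d237de_al.NormalSubgroups

/-- Let `n > 1`, let `G` be the free profinite group of rank `n` and `F` the free profinite group
of countable rank, and let `N` be a closed normal subgroup of `F`. Assume that every finite
nonabelian simple continuous quotient `S` of `N` can be generated by `d` elements for some `d`
with `d ≤ n` or `d ≤ (n - 1) * m`, where `m ∈ {1, 2, …, ∞}` is the number of closed normal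
subgroups `L` of `N` with `N / L` isomorphic to `S`. Then `N` is isomorphic as a topological
group to a closed normal subgroup of `G`. -/
theorem result :
    ∀ (n : ℕ), 1 < n →
    ∀ (G : Type) [Group G] [TopologicalSpace G] [IsTopologicalGroup G] [CompactSpace G]
      [T2Space G] [TotallyDisconnectedSpace G] (ι : Fin n → G),
      (∀ (H : Type) [Group H] [Finite H] [TopologicalSpace H] [DiscreteTopology H]
          (f : Fin n → H), ∃! φ : G →* H, Continuous ⇑φ ∧ ⇑φ ∘ ι = f) →
    ∀ (F : Type) [Group F] [TopologicalSpace F] [IsTopologicalGroup F] [CompactSpace F]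
      [T2Space F] [TotallyDisconnectedSpace F] (κ : ℕ → F),
      Tendsto κ atTop (𝓝 1) →
      (∀ (H : Type) [Group H] [Finite H] [TopologicalSpace H] [DiscreteTopology H]
          (f : ℕ → H), (∀ᶠ k in atTop, f k = 1) →
          ∃! φ : F →* H, Continuous ⇑φ ∧ ⇑φ ∘ κ = f) →
    ∀ N : Subgroup F, IsClosed (N : Set F) → N.Normal →
      (∀ (S : Type) [Group S] [Finite S] [TopologicalSpace S] [DiscreteTopology S]
          [IsSimpleGroup S], (∃ a b : S, a * b ≠ b * a) →
        (∃ f : N →* S, Continuous f ∧ Function.Surjective f) →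
        ∃ (d : ℕ) (s : Fin d → S), Subgroup.closure (Set.range s) = ⊤ ∧
          (d ≤ n ∨ (d : ℕ∞) ≤ ((n - 1 : ℕ) : ℕ∞) *
            {L : Subgroup N | ∃ f : N →* S, Continuous f ∧ Function.Surjective f ∧
              f.ker = L}.encard)) →
      ∃ M : Subgroup G, IsClosed (M : Set G) ∧ M.Normal ∧ Nonempty (N ≃ₜ* M) := by
  intro n hn G _ _ _ _ _ _ ι hG F _ _ _ _ _ _ κ hκ hF N hNc hN h
  exact Pool.Agent.Helper691.NS.main hn ι (Pool.Agent.Helper691.NS.freeFin_of ι hG) κ
    (Pool.Agent.Helper691.NS.freeOmega_of κ hκ hF) N hNc hN h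

end Pool.Agent.Results.MP_d237de_al.NormalSubgroups
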